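import Pool.Agent.Run7.h612.SY.Dep

/-!
# When is an isotropic class on the boundary of the movable cone effective?

Let `X` be a projective hyperkähler manifold (or a normal projective variety with a
Beauville–Bogomolov form `b` on `Cl X ⊗ ℚ = ℚ ^ ρ`). The rational classes of the closed movable cone
with positive square are big, so the question is whether the rational isotropic classes of this cone
are effective. Let `L` be a divisor on `X`, not numerically trivial, with `b(L, L) = 0`, which is
nonnegative on the prime divisors (this is true for the classes in the closed movable cone).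

1. `L` is linearly equivalent to an effective `ℚ`-divisor if and only if the classes of the prime
   divisors orthogonal to `L`, together with the class of `L`, are linearly dependent.
2. A multiple of `L` is movable if and only if the classes of the prime divisors orthogonal to `L` are
   linearly dependent, and if and only if the Iitaka dimension of `L` is positive.
3. If `L` is not effective then there are at most `ρ - 2` prime divisors orthogonal to `L`, and they
   are exceptional: their squares are negative.

`NormalModel`, `IsPrimeDivisor`, `Through` and `Effective` are defined in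
`Pool.Agent.Y172.Defs`, `cls` in `Pool.Agent.N110.NV.Defs`, `IsBBForm` and `orth` in
`Pool.Agent.Run7.h701.HK.Defs`, the other definitions in `Run7.h612.SY`.
-/

set_option autoImplicit false

open FF Pool.Agent.Y172 Pool.Agent.N110 Pool.Agent.Run7.h701 Run7.h612.SY

/-- Let `X` be a normal projective variety with generic point `y`, `b` a Beauville–Bogomolov form on
`Cl X ⊗ ℚ = ℚ ^ ρ` and `L` a divisor on `X` with nonzero class and `b(L, L) = 0`, nonnegative on the
prime divisors. Then the class of `L` is effective if and only if the Iitaka dimension of `L` is not
`-∞`, if and only if `L` and the prime divisors orthogonal to `L` are linearly dependent; some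
`|m L|`, `m ≥ 1`, is not empty and has no fixed component if and only if the Iitaka dimension of `L` is
positive, if and only if the prime divisors orthogonal to `L` are linearly dependent; and otherwise
there are at most `ρ - 2` of them, of negative square, if `L` is not effective. -/
theorem Pool.Agent.Results.MP_283e5d_ag.EffectiveIsotropic.result
    {K : Type} [Field K] [Algebra ℂ K] {N ρ : ℕ} {y : Fin (N + 1) → K} (hy : NormalModel y)
    {c : Place ℂ K → Fin ρ → ℚ} {b : LinearMap.BilinForm ℚ (Fin ρ → ℚ)}
    (hb : HK.IsBBForm y c b) {L : Place ℂ K → ℚ} (hL : IsDivisor y L)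
    (hmov : ∀ P, IsPrimeDivisor y P → 0 ≤ b (cls y c L) (c P)) (hne : cls y c L ≠ 0)
    (hq : b (cls y c L) (cls y c L) = 0) :
    (IitakaGe y L 0 ↔ ∃ D : Place ℂ K → ℚ, Effective y D ∧ cls y c D = cls y c L) ∧
    (IitakaGe y L 0 ↔ DependentWith y c b L) ∧
    (IitakaGe y L 1 ↔ ∃ m : ℕ, 1 ≤ m ∧ NoFixedComponent y (m • L)) ∧
    (IitakaGe y L 1 ↔ DependentPrimes y c b L) ∧
    (¬ IitakaGe y L 0 → (HK.orth y c b L).Finite ∧ (HK.orth y c b L).ncard + 2 ≤ ρ ∧
      ∀ P ∈ HK.orth y c b L, b (c P) (c P) < 0) :=
  ⟨effective_iff hy hb hL, kappa_zero_iff hy hb hL hmov hne hq,
    kappa_iff_noFixed hy hb hL hmov hne hq, kappa_one_iff hy hb hL hmov hne hq,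
    fun h0 => ⟨(card_of_not_effective hy hb hL hmov hne hq h0).1,
      (card_of_not_effective hy hb hL hmov hne hq h0).2,
      fun _ hP => neg_of_not_effective hy hb hL hmov hne hq h0 hP⟩⟩
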